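import Mathlib
import Pool.Agent.FB.Iface2

/-!
# TheoremCLOSE (MP_15d50e_gt): closeness of `ψ`, `ω` to the catenoid model
-/

open Complex Set
open scoped ComplexConjugate Real

namespace FB
namespace CLOSE

/-! ## parameters -/

theorem t_range {k t : ℝ} (hk : 0 < k) (h : |t / k - 1 / (2 * Real.sqrt 2 * π)| ≤ 1 / 100) :
    k / 10 ≤ t ∧ t ≤ k / 8 := by
  have h2 : (141 / 100 : ℝ) ≤ Real.sqrt 2 := by
    apply Real.le_sqrt_of_sq_le; norm_num
  have h2' : Real.sqrt 2 ≤ (142 / 100 : ℝ) := by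
    rw [Real.sqrt_le_left (by norm_num)]; norm_num
  have hp : (3.14 : ℝ) < π := Real.pi_gt_d2
  have hp' : π < (3.15 : ℝ) := Real.pi_lt_d2
  have hpos : 0 < 2 * Real.sqrt 2 * π := by positivity
  have hl : (8.85 : ℝ) ≤ 2 * Real.sqrt 2 * π := by nlinarith
  have hu : 2 * Real.sqrt 2 * π ≤ (8.95 : ℝ) := by nlinarith
  have hi1 : 1 / (2 * Real.sqrt 2 * π) ≤ 1 / 8.85 :=
    one_div_le_one_div_of_le (by norm_num) hl
  have hi2 : 1 / 8.95 ≤ 1 / (2 * Real.sqrt 2 * π) := one_div_le_one_div_of_le hpos hu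
  rw [abs_le] at h
  have e1 : (1 / 10 : ℝ) ≤ t / k := by
    have : (1 / 10 : ℝ) ≤ 1 / 8.95 - 1 / 100 := by norm_num
    linarith [h.1]
  have e2 : t / k ≤ (1 / 8 : ℝ) := by
    have : (1 / 8.85 : ℝ) + 1 / 100 ≤ 1 / 8 := by norm_num
    linarith [h.2]
  rw [le_div_iff₀ hk] at e1
  rw [div_le_iff₀ hk] at e2
  constructor <;> linarith

theorem beta_sum {k t β C : ℝ} (hk : 0 < k)
    (h : |t / k - 1 / (2 * Real.sqrt 2 * π)| ≤ C * k)
    (hβ : |β + k ^ 2 / (2 * π)| ≤ C * k ^ 3) :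
    |β + Real.sqrt 2 * k * t| ≤ 3 * C * k ^ 3 := by
  have h2' : Real.sqrt 2 ≤ (2 : ℝ) := by
    rw [Real.sqrt_le_left (by norm_num)]; norm_num
  have h0 : 0 < Real.sqrt 2 := by positivity
  have e : β + Real.sqrt 2 * k * t = (β + k ^ 2 / (2 * π)) +
      Real.sqrt 2 * k ^ 2 * (t / k - 1 / (2 * Real.sqrt 2 * π)) := by
    field_simp
    ring
  rw [e]
  refine (abs_add_le _ _).trans ?_
  rw [abs_mul, abs_of_pos (by positivity : 0 < Real.sqrt 2 * k ^ 2)]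
  have : Real.sqrt 2 * k ^ 2 * |t / k - 1 / (2 * Real.sqrt 2 * π)| ≤ 2 * k ^ 2 * (C * k) := by
    gcongr
  nlinarith

/-! ## elementary inequalities -/

/-- `binom(m+n,n) ≤ (32/31)^n 32^m`. -/
theorem choose_bound (m n : ℕ) : ((Nat.choose (m + n) n : ℕ) : ℝ) ≤ (32 / 31) ^ n * 32 ^ m := by
  have h : ((32 / 31 : ℝ)) ^ (m + n) = (1 + 1 / 31) ^ (m + n) := by norm_num
  have h2 : (Nat.choose (m + n) m : ℝ) * (1 / 31) ^ m ≤ (1 + 1 / 31) ^ (m + n) := by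
    rw [add_comm (1 : ℝ) (1 / 31), add_pow]
    have := Finset.single_le_sum (f := fun i => (1 / 31 : ℝ) ^ i * 1 ^ (m + n - i) *
      (Nat.choose (m + n) i : ℝ)) (s := Finset.range (m + n + 1)) (fun i _ => by positivity)
      (Finset.mem_range.mpr (by omega : m < m + n + 1))
    simp only [one_pow, mul_one] at this ⊢
    linarith
  have h3 : Nat.choose (m + n) n = Nat.choose (m + n) m := by
    rw [← Nat.choose_symm_add]
    
  rw [h3]
  have h4 : (0 : ℝ) < 31 ^ m := by positivity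
  have h5 : (Nat.choose (m + n) m : ℝ) ≤ (32 / 31) ^ (m + n) * 31 ^ m := by
    have : (Nat.choose (m + n) m : ℝ) = (Nat.choose (m + n) m : ℝ) * (1 / 31) ^ m * 31 ^ m := by
      rw [mul_assoc, ← mul_pow]; norm_num
    rw [this, h]
    gcongr
  refine h5.trans (le_of_eq ?_)
  rw [pow_add, mul_comm ((32 / 31 : ℝ) ^ m), mul_assoc, ← mul_pow]
  norm_num

/-- `|x^n - y^n| ≤ n R^(n-1) |x - y|`. -/
theorem pow_sub_le {x y : ℂ} {R : ℝ} (hx : ‖x‖ ≤ R) (hy : ‖y‖ ≤ R) (n : ℕ) :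
    ‖x ^ n - y ^ n‖ ≤ n * R ^ (n - 1) * ‖x - y‖ := by
  have hR : 0 ≤ R := (norm_nonneg x).trans hx
  rw [← (Commute.all x y).geom_sum₂_mul n, norm_mul]
  gcongr
  refine (norm_sum_le _ _).trans ?_
  calc ∑ i ∈ Finset.range n, ‖x ^ i * y ^ (n - 1 - i)‖ ≤ ∑ i ∈ Finset.range n, R ^ (n - 1) := by
        apply Finset.sum_le_sum
        intro i hi
        rw [norm_mul, norm_pow, norm_pow]
        calc ‖x‖ ^ i * ‖y‖ ^ (n - 1 - i) ≤ R ^ i * R ^ (n - 1 - i) := by gcongr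
          _ = R ^ (n - 1) := by
            rw [← pow_add]
            congr 1
            have := Finset.mem_range.1 hi
            omega
    _ = n * R ^ (n - 1) := by simp

theorem inv_sub_le {x y : ℂ} {t : ℝ} (ht : 0 < t) (hx : t ≤ ‖x‖) (hy : t ≤ ‖y‖) (n : ℕ) :
    ‖((t : ℂ) / x) ^ n - ((t : ℂ) / y) ^ n‖ ≤ n / t * ‖x - y‖ := by
  have hx0 : x ≠ 0 := by
    intro h; rw [h, norm_zero] at hx; linarith
  have hy0 : y ≠ 0 := by
    intro h; rw [h, norm_zero] at hy; linarith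
  have hxp : 0 < ‖x‖ := norm_pos_iff.mpr hx0
  have hyp : 0 < ‖y‖ := norm_pos_iff.mpr hy0
  have h1 : ‖(t : ℂ) / x‖ ≤ 1 := by
    rw [norm_div, Complex.norm_real, Real.norm_eq_abs, abs_of_pos ht]
    exact (div_le_one hxp).mpr hx
  have h2 : ‖(t : ℂ) / y‖ ≤ 1 := by
    rw [norm_div, Complex.norm_real, Real.norm_eq_abs, abs_of_pos ht]
    exact (div_le_one hyp).mpr hy
  refine (pow_sub_le h1 h2 n).trans ?_
  rw [one_pow, mul_one]
  have h3 : (t : ℂ) / x - (t : ℂ) / y = (t : ℂ) * (y - x) / (x * y) := by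
    field_simp
  rw [h3, norm_div, norm_mul, norm_mul, Complex.norm_real, Real.norm_eq_abs, abs_of_pos ht,
    norm_sub_rev y x]
  have h4 : t * ‖x - y‖ / (‖x‖ * ‖y‖) ≤ 1 / t * ‖x - y‖ := by
    rw [div_le_iff₀ (by positivity)]
    have : t * t ≤ ‖x‖ * ‖y‖ := mul_le_mul hx hy ht.le hxp.le
    calc t * ‖x - y‖ = 1 / t * ‖x - y‖ * (t * t) := by field_simp
      _ ≤ 1 / t * ‖x - y‖ * (‖x‖ * ‖y‖) := by gcongr
  calc (n : ℝ) * (t * ‖x - y‖ / (‖x‖ * ‖y‖)) ≤ n * (1 / t * ‖x - y‖) := by gcongr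
    _ = n / t * ‖x - y‖ := by ring

theorem log_sub_le {x y t : ℝ} (ht : 0 < t) (hx : t ≤ x) (hy : t ≤ y) :
    |Real.log (x / t) - Real.log (y / t)| ≤ 1 / t * |x - y| := by
  have key : ∀ u v : ℝ, t ≤ u → t ≤ v →
      Real.log (u / t) - Real.log (v / t) ≤ 1 / t * |u - v| := by
    intro u v hu hv
    have hup : 0 < u := lt_of_lt_of_le ht hu
    have hvp : 0 < v := lt_of_lt_of_le ht hv
    have e : Real.log (u / t) - Real.log (v / t) = Real.log (u / v) := by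
      rw [Real.log_div hup.ne' ht.ne', Real.log_div hvp.ne' ht.ne', Real.log_div hup.ne' hvp.ne']
      ring
    rw [e]
    have h1 : Real.log (u / v) ≤ u / v - 1 := Real.log_le_sub_one_of_pos (by positivity)
    have h2 : u / v - 1 = (u - v) / v := by field_simp
    have h3 : (u - v) / v ≤ |u - v| / v := by gcongr; exact le_abs_self _
    have h4 : |u - v| / v ≤ |u - v| / t := by gcongr
    calc Real.log (u / v) ≤ |u - v| / t := by linarith
      _ = 1 / t * |u - v| := by ring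
  rw [abs_le]
  constructor
  · have := key y x hy hx
    rw [abs_sub_comm] at this
    linarith
  · exact key x y hx hy

theorem log_le {x t : ℝ} (ht : 0 < t) (hx : t ≤ x) :
    |Real.log (x / t)| ≤ x / t := by
  have h1 : 1 ≤ x / t := (one_le_div ht).mpr hx
  rw [abs_of_nonneg (Real.log_nonneg h1)]
  have := Real.log_le_sub_one_of_pos (by positivity : 0 < x / t)
  linarith

theorem n_le_two_pow (n : ℕ) : (n : ℝ) ≤ 2 ^ n := by
  have := Nat.lt_two_pow_self (n := n)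
  exact_mod_cast this.le

/-! ## the terms -/

/-- The general term of the expansion of `ψ`. -/
noncomputable def term (t : ℝ) (A B : ℕ → ℂ) (z : ℂ) (n : ℕ) : ℂ :=
  A n * (z / t) ^ n + (-1) ^ n * conj (A n) * (conj z / t) ^ n +
        B n * (t / conj z) ^ n + (-1) ^ n * conj (B n) * (t / z) ^ n

theorem norm_neg_one_pow (n : ℕ) : ‖((-1 : ℂ)) ^ n‖ = 1 := by simp

theorem norm_term_le {t D : ℝ} {A B : ℕ → ℂ} (ht : 0 < t)
    (hA : ∀ n, ‖A n‖ ≤ D * (40 / 31) ^ n * t ^ n) {z : ℂ} (h1 : t ≤ ‖z‖) (h2 : ‖z‖ ≤ 3 / 4)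
    (n : ℕ) : ‖term t A B z n‖ ≤ 2 * D * (30 / 31) ^ n + 2 * (2 ^ n * ‖B n‖) := by
  have hz : 0 < ‖z‖ := lt_of_lt_of_le ht h1
  have hD : 0 ≤ D * (40 / 31) ^ n * t ^ n := (norm_nonneg _).trans (hA n)
  have a1 : ‖(z / t : ℂ) ^ n‖ = ‖z‖ ^ n / t ^ n := by
    rw [norm_pow, norm_div, Complex.norm_real, Real.norm_eq_abs, abs_of_pos ht, div_pow]
  have a2 : ‖(conj z / t : ℂ) ^ n‖ = ‖z‖ ^ n / t ^ n := by
    rw [norm_pow, norm_div, RCLike.norm_conj, Complex.norm_real, Real.norm_eq_abs, abs_of_pos ht,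
      div_pow]
  have b1 : ‖(t / conj z : ℂ) ^ n‖ ≤ 1 := by
    rw [norm_pow, norm_div, RCLike.norm_conj, Complex.norm_real, Real.norm_eq_abs, abs_of_pos ht]
    exact pow_le_one₀ (by positivity) ((div_le_one hz).mpr h1)
  have b2 : ‖(t / z : ℂ) ^ n‖ ≤ 1 := by
    rw [norm_pow, norm_div, Complex.norm_real, Real.norm_eq_abs, abs_of_pos ht]
    exact pow_le_one₀ (by positivity) ((div_le_one hz).mpr h1)
  have hA' : ‖A n‖ * (‖z‖ ^ n / t ^ n) ≤ D * (30 / 31) ^ n := by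
    have hD' : 0 ≤ D * (40 / 31) ^ n := by
      by_contra hneg
      push Not at hneg
      have : D * (40 / 31) ^ n * t ^ n < 0 := mul_neg_of_neg_of_pos hneg (by positivity)
      linarith
    calc ‖A n‖ * (‖z‖ ^ n / t ^ n) ≤ (D * (40 / 31) ^ n * t ^ n) * ((3 / 4) ^ n / t ^ n) := by
          gcongr
          exact hA n
      _ = D * ((40 / 31) ^ n * (3 / 4) ^ n) := by field_simp
      _ = D * (30 / 31) ^ n := by rw [← mul_pow]; norm_num
  have h2n : (1 : ℝ) ≤ 2 ^ n := one_le_pow₀ (by norm_num)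
  have hB : ‖B n‖ ≤ 2 ^ n * ‖B n‖ := le_mul_of_one_le_left (norm_nonneg _) h2n
  unfold term
  refine (norm_add_le _ _).trans ?_
  refine (add_le_add ((norm_add_le _ _).trans (add_le_add (norm_add_le _ _) le_rfl)) le_rfl).trans ?_
  simp only [norm_mul, norm_neg_one_pow, one_mul, RCLike.norm_conj, a1, a2]
  have c1 : ‖B n‖ * ‖(t / conj z : ℂ) ^ n‖ ≤ ‖B n‖ * 1 := by gcongr
  have c2 : ‖B n‖ * ‖(t / z : ℂ) ^ n‖ ≤ ‖B n‖ * 1 := by gcongr
  linarith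

theorem norm_term_sub_le {t D : ℝ} {A B : ℕ → ℂ} (ht : 0 < t) (hD : 0 ≤ D)
    (hA : ∀ n, ‖A n‖ ≤ D * (40 / 31) ^ n * t ^ n) {x y : ℂ} (h1 : t ≤ ‖x‖) (h2 : ‖x‖ ≤ 3 / 4)
    (h3 : t ≤ ‖y‖) (h4 : ‖y‖ ≤ 3 / 4)
    (n : ℕ) : ‖term t A B x n - term t A B y n‖ ≤
      (8 / 3 * D * (n * (30 / 31) ^ n) + 2 / t * (2 ^ n * ‖B n‖)) * ‖x - y‖ := by
  have htc : (t : ℂ) ≠ 0 := by exact_mod_cast ht.ne'
  have e : term t A B x n - term t A B y n =
      A n / t ^ n * (x ^ n - y ^ n) + (-1) ^ n * conj (A n) / t ^ n * (conj x ^ n - conj y ^ n) +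
      B n * ((t / conj x) ^ n - (t / conj y) ^ n) +
      (-1) ^ n * conj (B n) * ((t / x) ^ n - (t / y) ^ n) := by
    unfold term
    rw [div_pow x, div_pow y, div_pow (conj x), div_pow (conj y)]
    ring
  have hcx : t ≤ ‖conj x‖ := by rwa [RCLike.norm_conj]
  have hcy : t ≤ ‖conj y‖ := by rwa [RCLike.norm_conj]
  have hcx' : ‖conj x‖ ≤ 3 / 4 := by rwa [RCLike.norm_conj]
  have hcy' : ‖conj y‖ ≤ 3 / 4 := by rwa [RCLike.norm_conj]
  have hcc : ‖conj x - conj y‖ = ‖x - y‖ := by rw [← map_sub, RCLike.norm_conj]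
  have p1 := pow_sub_le h2 h4 n
  have p2 := pow_sub_le hcx' hcy' n
  have p3 := inv_sub_le ht hcx hcy n
  have p4 := inv_sub_le ht h1 h3 n
  rw [hcc] at p2 p3
  have hA1 : ‖A n‖ / t ^ n ≤ D * (40 / 31) ^ n := by
    rw [div_le_iff₀ (by positivity)]
    exact hA n
  have hkey : ‖A n‖ / t ^ n * (n * (3 / 4) ^ (n - 1) * ‖x - y‖) ≤
      4 / 3 * D * (n * (30 / 31) ^ n) * ‖x - y‖ := by
    calc ‖A n‖ / t ^ n * (n * (3 / 4) ^ (n - 1) * ‖x - y‖)
        ≤ D * (40 / 31) ^ n * (n * (3 / 4) ^ (n - 1) * ‖x - y‖) := by gcongr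
      _ = 4 / 3 * D * (n * (30 / 31) ^ n) * ‖x - y‖ := by
          rcases Nat.eq_zero_or_pos n with h | h
          · subst h; simp
          · obtain ⟨m, rfl⟩ : ∃ m, n = m + 1 := ⟨n - 1, by omega⟩
            have : ((30 / 31 : ℝ)) ^ (m + 1) = (40 / 31) ^ (m + 1) * (3 / 4) ^ (m + 1) := by
              rw [← mul_pow]; norm_num
            rw [this, Nat.add_sub_cancel, pow_succ (3 / 4 : ℝ) m]
            ring
  have hB : ‖B n‖ * (n / t * ‖x - y‖) ≤ 1 / t * (2 ^ n * ‖B n‖) * ‖x - y‖ := by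
    calc ‖B n‖ * (n / t * ‖x - y‖) = 1 / t * (n * ‖B n‖) * ‖x - y‖ := by ring
      _ ≤ 1 / t * (2 ^ n * ‖B n‖) * ‖x - y‖ := by
          gcongr
          exact n_le_two_pow n
  rw [e]
  refine (norm_add_le _ _).trans ?_
  refine (add_le_add ((norm_add_le _ _).trans (add_le_add (norm_add_le _ _) le_rfl)) le_rfl).trans ?_
  have htn : ‖((t : ℂ)) ^ n‖ = t ^ n := by
    rw [norm_pow, Complex.norm_real, Real.norm_eq_abs, abs_of_pos ht]
  simp only [norm_mul, norm_div, norm_neg_one_pow, one_mul, RCLike.norm_conj, htn]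
  have c1 : ‖A n‖ / t ^ n * ‖x ^ n - y ^ n‖ ≤
      ‖A n‖ / t ^ n * (n * (3 / 4) ^ (n - 1) * ‖x - y‖) := by gcongr
  have c2 : ‖A n‖ / t ^ n * ‖conj x ^ n - conj y ^ n‖ ≤
      ‖A n‖ / t ^ n * (n * (3 / 4) ^ (n - 1) * ‖x - y‖) := by gcongr
  have c3 : ‖B n‖ * ‖(t / conj x : ℂ) ^ n - (t / conj y) ^ n‖ ≤ ‖B n‖ * (n / t * ‖x - y‖) := by
    gcongr
  have c4 : ‖B n‖ * ‖(t / x : ℂ) ^ n - (t / y) ^ n‖ ≤ ‖B n‖ * (n / t * ‖x - y‖) := by
    gcongr
  calc _ ≤ 4 / 3 * D * (n * (30 / 31) ^ n) * ‖x - y‖ + 4 / 3 * D * (n * (30 / 31) ^ n) * ‖x - y‖ +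
        1 / t * (2 ^ n * ‖B n‖) * ‖x - y‖ + 1 / t * (2 ^ n * ‖B n‖) * ‖x - y‖ := by
        linarith
    _ = _ := by ring

/-- The terms of `z ω`. -/
noncomputable def termO (t : ℝ) (A B : ℕ → ℂ) (z : ℂ) (n : ℕ) : ℂ :=
  (n : ℂ) * (A n * (z / t) ^ n - (-1) ^ n * conj (B n) * (t / z) ^ n)

theorem norm_termO_le {t D : ℝ} {A B : ℕ → ℂ} (ht : 0 < t) (hD : 0 ≤ D)
    (hA : ∀ n, ‖A n‖ ≤ D * (40 / 31) ^ n * t ^ n) {z : ℂ} (h1 : t ≤ ‖z‖) (h2 : ‖z‖ ≤ 3 / 4)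
    (n : ℕ) : ‖termO t A B z n‖ ≤
      ‖z‖ * (4 / 3 * D * (n * (30 / 31) ^ n) + 1 / t * (2 ^ n * ‖B n‖)) := by
  have hz : 0 < ‖z‖ := lt_of_lt_of_le ht h1
  have a1 : ‖(z / t : ℂ) ^ n‖ = ‖z‖ ^ n / t ^ n := by
    rw [norm_pow, norm_div, Complex.norm_real, Real.norm_eq_abs, abs_of_pos ht, div_pow]
  have b2 : ‖(t / z : ℂ) ^ n‖ ≤ 1 := by
    rw [norm_pow, norm_div, Complex.norm_real, Real.norm_eq_abs, abs_of_pos ht]
    exact pow_le_one₀ (by positivity) ((div_le_one hz).mpr h1)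
  unfold termO
  rw [norm_mul, Complex.norm_natCast]
  have hsub : ‖A n * (z / t) ^ n - (-1) ^ n * conj (B n) * (t / z) ^ n‖ ≤
      ‖A n‖ * (‖z‖ ^ n / t ^ n) + ‖B n‖ * 1 := by
    refine (norm_sub_le _ _).trans ?_
    simp only [norm_mul, norm_neg_one_pow, one_mul, RCLike.norm_conj, a1]
    gcongr
  have hA1 : ‖A n‖ / t ^ n ≤ D * (40 / 31) ^ n := by
    rw [div_le_iff₀ (by positivity)]
    exact hA n
  have hkey : (n : ℝ) * (‖A n‖ * (‖z‖ ^ n / t ^ n)) ≤ ‖z‖ * (4 / 3 * D * (n * (30 / 31) ^ n)) := by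
    rcases Nat.eq_zero_or_pos n with h | h
    · subst h; simp
    · obtain ⟨m, rfl⟩ : ∃ m, n = m + 1 := ⟨n - 1, by omega⟩
      calc ((m + 1 : ℕ) : ℝ) * (‖A (m + 1)‖ * (‖z‖ ^ (m + 1) / t ^ (m + 1)))
          = ((m + 1 : ℕ) : ℝ) * (‖A (m + 1)‖ / t ^ (m + 1)) * ‖z‖ ^ m * ‖z‖ := by
            rw [pow_succ ‖z‖ m]; ring
        _ ≤ ((m + 1 : ℕ) : ℝ) * (D * (40 / 31) ^ (m + 1)) * (3 / 4) ^ m * ‖z‖ := by
            gcongr
        _ = ‖z‖ * (4 / 3 * D * (((m + 1 : ℕ) : ℝ) * (30 / 31) ^ (m + 1))) := by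
            have : ((30 / 31 : ℝ)) ^ (m + 1) = (40 / 31) ^ (m + 1) * (3 / 4) ^ (m + 1) := by
              rw [← mul_pow]; norm_num
            rw [this, pow_succ (3 / 4 : ℝ) m]
            ring
  have hB : (n : ℝ) * ‖B n‖ ≤ ‖z‖ * (1 / t * (2 ^ n * ‖B n‖)) := by
    have : 1 ≤ ‖z‖ / t := (one_le_div ht).mpr h1
    calc (n : ℝ) * ‖B n‖ ≤ 2 ^ n * ‖B n‖ := by
          gcongr
          exact n_le_two_pow n
      _ ≤ (‖z‖ / t) * (2 ^ n * ‖B n‖) := le_mul_of_one_le_left (by positivity) this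
      _ = ‖z‖ * (1 / t * (2 ^ n * ‖B n‖)) := by ring
  calc (n : ℝ) * ‖A n * (z / t) ^ n - (-1) ^ n * conj (B n) * (t / z) ^ n‖
      ≤ n * (‖A n‖ * (‖z‖ ^ n / t ^ n) + ‖B n‖ * 1) := by gcongr
    _ = n * (‖A n‖ * (‖z‖ ^ n / t ^ n)) + n * ‖B n‖ := by ring
    _ ≤ _ := by rw [mul_add]; exact add_le_add hkey hB

/-! ## the leading terms -/

theorem dotp_eq (κ w : ℂ) : ((dotp κ w : ℝ) : ℂ) = (conj κ * w + κ * conj w) / 2 := by
  apply Complex.ext
  · simp [dotp]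
  · simp [dotp]; ring

theorem lead_hasSum (κ : ℂ) {t : ℝ} (ht : 0 < t) {z : ℂ} (hz : z ≠ 0) :
    HasSum (fun n => term t (leadC κ t) (leadC κ t) z n) ((dotp κ (Xmap t z) : ℂ) * I) := by
  have htc : (t : ℂ) ≠ 0 := by exact_mod_cast ht.ne'
  have hcz : conj z ≠ 0 := by simpa using hz
  have h := hasSum_single (f := fun n => term t (leadC κ t) (leadC κ t) z n) 1 (by
    intro n hn
    simp [term, leadC, hn])
  have e : term t (leadC κ t) (leadC κ t) z 1 = (dotp κ (Xmap t z) : ℂ) * I := by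
    rw [dotp_eq]
    simp only [term, leadC, if_true, pow_one, Xmap, map_add, map_div₀, map_mul, Complex.conj_I,
      Complex.conj_conj, Complex.conj_ofReal, map_ofNat, map_pow]
    field_simp
    ring
  rw [e] at h
  exact h

theorem leadO_hasSum (κ : ℂ) {t : ℝ} (ht : 0 < t) {z : ℂ} (hz : z ≠ 0) :
    HasSum (fun n => termO t (leadC κ t) (leadC κ t) z n)
      (z * modelOm κ t z + ((Real.sqrt 2 * ‖κ‖ * t : ℝ) : ℂ) / 2) := by
  have htc : (t : ℂ) ≠ 0 := by exact_mod_cast ht.ne'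
  have h := hasSum_single (f := fun n => termO t (leadC κ t) (leadC κ t) z n) 1 (by
    intro n hn
    simp [termO, leadC, hn])
  have e : termO t (leadC κ t) (leadC κ t) z 1 =
      z * modelOm κ t z + ((Real.sqrt 2 * ‖κ‖ * t : ℝ) : ℂ) / 2 := by
    simp only [termO, leadC, if_true, pow_one, modelOm, map_div₀, map_mul, Complex.conj_I,
      Complex.conj_conj, Complex.conj_ofReal, map_ofNat]
    field_simp
    push_cast
    ring
  rw [e] at h
  exact h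

theorem term_sub_lead (κ : ℂ) (t : ℝ) (a b : ℕ → ℂ) (z : ℂ) (n : ℕ) :
    term t a b z n - term t (leadC κ t) (leadC κ t) z n =
      term t (fun n => a n - leadC κ t n) (fun n => b n - leadC κ t n) z n := by
  simp only [term, map_sub]
  ring

theorem termO_sub_lead (κ : ℂ) (t : ℝ) (a b : ℕ → ℂ) (z : ℂ) (n : ℕ) :
    termO t a b z n - termO t (leadC κ t) (leadC κ t) z n =
      termO t (fun n => a n - leadC κ t n) (fun n => b n - leadC κ t n) z n := by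
  simp only [termO, map_sub]
  ring

/-! ## coefficient bounds -/

theorem leadC_norm (κ : ℂ) {t : ℝ} (ht : 0 < t) :
    HasSum (fun n : ℕ => 2 ^ n * ‖leadC κ t n‖) (‖κ‖ * t) := by
  have h := hasSum_single (f := fun n : ℕ => 2 ^ n * ‖leadC κ t n‖) 1 (by
    intro n hn
    simp [leadC, hn])
  have e : (2 : ℝ) ^ 1 * ‖leadC κ t 1‖ = ‖κ‖ * t := by
    simp [leadC, abs_of_pos ht]
    ring
  rw [e] at h
  exact h

theorem b_bound {κ : ℂ} {t B0 : ℝ} {b : ℕ → ℂ} (ht : 0 < t)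
    (hb : WBound (fun n => b n - leadC κ t n) B0) :
    Summable (fun n : ℕ => 2 ^ n * ‖b n‖) ∧ ∑' n : ℕ, 2 ^ n * ‖b n‖ ≤ B0 + ‖κ‖ * t := by
  obtain ⟨hs, hle⟩ := hb
  have hl := leadC_norm κ ht
  have hs2 := hs.add hl.summable
  have hpt : ∀ n : ℕ, (2 : ℝ) ^ n * ‖b n‖ ≤ 2 ^ n * ‖b n - leadC κ t n‖ + 2 ^ n * ‖leadC κ t n‖ := by
    intro n
    rw [← mul_add]
    gcongr
    calc ‖b n‖ = ‖(b n - leadC κ t n) + leadC κ t n‖ := by rw [sub_add_cancel]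
      _ ≤ _ := norm_add_le _ _
  have hs3 : Summable (fun n : ℕ => (2 : ℝ) ^ n * ‖b n‖) :=
    Summable.of_nonneg_of_le (fun n => by positivity) hpt hs2
  refine ⟨hs3, ?_⟩
  calc ∑' n : ℕ, (2 : ℝ) ^ n * ‖b n‖ ≤
      ∑' n : ℕ, (2 ^ n * ‖b n - leadC κ t n‖ + 2 ^ n * ‖leadC κ t n‖) := hs3.tsum_le_tsum hpt hs2
    _ = ∑' n : ℕ, 2 ^ n * ‖b n - leadC κ t n‖ + ∑' n : ℕ, 2 ^ n * ‖leadC κ t n‖ :=
        hs.tsum_add hl.summable
    _ ≤ B0 + ‖κ‖ * t := by rw [hl.tsum_eq]; gcongr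

theorem coeff_bound {κ : ℂ} {C : ℝ} {E : ℕ → ℂ} {γ t β : ℝ} {a b : ℕ → ℂ} (hC : 0 < C)
    (hk : 0 < ‖κ‖) (hk1 : ‖κ‖ ≤ 1 / 10) (hCk : C * ‖κ‖ ≤ 1 / 100) (hL : LatBounds κ C E γ)
    (hF : IsFix κ C E γ t β a b) (n : ℕ) :
    ‖a n - leadC κ t n‖ ≤ 5 * C * ‖κ‖ ^ 2 * (40 / 31) ^ n * t ^ n := by
  set k := ‖κ‖ with hkdef
  obtain ⟨ht1, ht2⟩ := t_range hk (hF.tnear.trans hCk)
  have ht : 0 < t := by linarith
  rcases Nat.lt_or_ge n 2 with hn | hn
  · interval_cases n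
    · rw [hF.adef]
      simp only [regC, leadC, if_true, Nat.zero_ne_one, if_false, sub_zero, norm_zero]
      positivity
    · obtain ⟨hs, hle⟩ := hF.anear
      have h1 := hs.le_tsum 1 (fun j _ => by positivity)
      have h2 : (2 : ℝ) ^ 1 * ‖a 1 - leadC κ t 1‖ ≤ C * k ^ 3 := h1.trans hle
      have h3 : C * k ^ 3 ≤ C * k ^ 2 * (10 * t) := by
        have : C * k ^ 3 = C * k ^ 2 * k := by ring
        rw [this]
        gcongr
        linarith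
      have h4 : 0 < C * k ^ 2 * t := by positivity
      rw [pow_one] at h2 ⊢
      rw [pow_one]
      nlinarith
  · have hlead : leadC κ t n = 0 := by
      unfold leadC
      rw [if_neg (by omega)]
    rw [hlead, sub_zero, hF.adef]
    unfold regC
    rw [if_neg (by omega), norm_mul, norm_pow, Complex.norm_real, Real.norm_eq_abs, abs_of_pos ht]
    obtain ⟨hbs, hbt⟩ := b_bound ht hF.bnear
    -- the bound of the sum of the `b`
    have hB : ∑' m : ℕ, 2 ^ m * ‖b m‖ ≤ k ^ 2 := by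
      refine hbt.trans ?_
      have : C * ‖κ‖ ^ 3 = (C * ‖κ‖) * ‖κ‖ ^ 2 := by ring
      rw [this]
      have h1 : (C * ‖κ‖) * ‖κ‖ ^ 2 ≤ 1 / 100 * ‖κ‖ ^ 2 := by gcongr
      have h2 : ‖κ‖ * t ≤ ‖κ‖ * (‖κ‖ / 8) := by gcongr
      nlinarith [sq_nonneg ‖κ‖]
    have hβ : |β| ≤ k ^ 2 := by
      have h1 : |β| ≤ |β + k ^ 2 / (2 * π)| + k ^ 2 / (2 * π) := by
        have : β = (β + k ^ 2 / (2 * π)) - k ^ 2 / (2 * π) := by ring
        calc |β| = |(β + k ^ 2 / (2 * π)) - k ^ 2 / (2 * π)| := by rw [← this]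
          _ ≤ |β + k ^ 2 / (2 * π)| + |k ^ 2 / (2 * π)| := abs_sub _ _
          _ = _ := by rw [abs_of_pos (by positivity : 0 < k ^ 2 / (2 * π))]
      have h2 : k ^ 2 / (2 * π) ≤ k ^ 2 / 6 := by
        gcongr
        have := Real.pi_gt_three
        linarith
      have h3 : |β + k ^ 2 / (2 * π)| ≤ C * k ^ 3 := hF.βnear
      have h4 : C * k ^ 3 = (C * k) * k ^ 2 := by ring
      have h5 : (C * k) * k ^ 2 ≤ 1 / 100 * k ^ 2 := by gcongr
      nlinarith [sq_nonneg k]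
    have hn2 : (2 : ℝ) ≤ n := by exact_mod_cast hn
    have hEn := hL.ej n hn
    have h54 : (5 / 4 : ℝ) ^ n ≤ (40 / 31) ^ n :=
      pow_le_pow_left₀ (by norm_num) (by norm_num) n
    have hpart1 : ‖-(β : ℂ) * E n / (2 * n)‖ ≤ C * k ^ 2 / 4 * (40 / 31) ^ n := by
      rw [norm_div, norm_mul, norm_neg, Complex.norm_real, Real.norm_eq_abs, norm_mul,
        Complex.norm_natCast, Complex.norm_ofNat]
      calc |β| * ‖E n‖ / (2 * n) ≤ k ^ 2 * (C * (5 / 4) ^ n) / (2 * 2) := by gcongr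
        _ ≤ k ^ 2 * (C * (40 / 31) ^ n) / (2 * 2) := by gcongr
        _ = _ := by ring
    have hpart2 : ‖∑' m : ℕ, (Nat.choose (m + n) n : ℂ) * (t : ℂ) ^ (m + 1) * E (m + 1 + n) *
        conj (b (m + 1))‖ ≤ (40 / 31) ^ n * (5 / 4 * C * t) * k ^ 2 := by
      have hs1 : Summable (fun m : ℕ => (2 : ℝ) ^ (m + 1) * ‖b (m + 1)‖) :=
        (summable_nat_add_iff 1).mpr hbs
      have hle1 : ∑' m : ℕ, (2 : ℝ) ^ (m + 1) * ‖b (m + 1)‖ ≤ k ^ 2 := by
        have := hbs.tsum_eq_zero_add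
        have h0 : (0 : ℝ) ≤ 2 ^ 0 * ‖b 0‖ := by positivity
        linarith
      refine (tsum_of_norm_bounded (hs1.hasSum.mul_left ((40 / 31) ^ n * (5 / 4 * C * t)))
        (fun m => ?_)).trans ?_
      · rw [norm_mul, norm_mul, norm_mul, Complex.norm_natCast, norm_pow, Complex.norm_real,
          Real.norm_eq_abs, abs_of_pos ht, RCLike.norm_conj]
        have hE := hL.ej (m + 1 + n) (by omega)
        have hc := choose_bound m n
        have h40 : (40 * t) ^ m ≤ 1 := pow_le_one₀ (by positivity) (by linarith)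
        have h2m : (1 : ℝ) ≤ 2 ^ (m + 1) := one_le_pow₀ (by norm_num)
        calc (Nat.choose (m + n) n : ℝ) * t ^ (m + 1) * ‖E (m + 1 + n)‖ * ‖b (m + 1)‖
            ≤ ((32 / 31) ^ n * 32 ^ m) * t ^ (m + 1) * (C * (5 / 4) ^ (m + 1 + n)) *
              ‖b (m + 1)‖ := by gcongr
          _ = (40 / 31) ^ n * (5 / 4 * C * t) * ((40 * t) ^ m * ‖b (m + 1)‖) := by
              have e1 : (40 / 31 : ℝ) ^ n = (32 / 31) ^ n * (5 / 4) ^ n := by
                rw [← mul_pow]; norm_num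
              have e2 : (40 * t) ^ m = 32 ^ m * (5 / 4) ^ m * t ^ m := by
                rw [← mul_pow, ← mul_pow]; norm_num
              rw [e1, e2, pow_add (5 / 4 : ℝ), pow_add (5 / 4 : ℝ), pow_add t]
              ring
          _ ≤ (40 / 31) ^ n * (5 / 4 * C * t) * (1 * ‖b (m + 1)‖) := by gcongr
          _ ≤ (40 / 31) ^ n * (5 / 4 * C * t) * (2 ^ (m + 1) * ‖b (m + 1)‖) := by gcongr
      · gcongr
    have hpart3 : (40 / 31 : ℝ) ^ n * (5 / 4 * C * t) * k ^ 2 ≤ C * k ^ 2 * (40 / 31) ^ n := by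
      have : 5 / 4 * C * t ≤ C := by nlinarith
      calc (40 / 31 : ℝ) ^ n * (5 / 4 * C * t) * k ^ 2 ≤ (40 / 31 : ℝ) ^ n * C * k ^ 2 := by gcongr
        _ = _ := by ring
    have hsum := (norm_add_le (-(β : ℂ) * E n / (2 * n)) (∑' m : ℕ, (Nat.choose (m + n) n : ℂ) *
      (t : ℂ) ^ (m + 1) * E (m + 1 + n) * conj (b (m + 1)))).trans (add_le_add hpart1 hpart2)
    have hpos : 0 ≤ C * k ^ 2 * (40 / 31) ^ n := by positivity
    calc t ^ n * _ ≤ t ^ n * (C * k ^ 2 / 4 * (40 / 31) ^ n +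
          (40 / 31) ^ n * (5 / 4 * C * t) * k ^ 2) := by gcongr
      _ ≤ t ^ n * (5 * C * k ^ 2 * (40 / 31) ^ n) := by
          gcongr
          linarith
      _ = _ := by ring

/-! ## the theorem -/

theorem geo_sum : HasSum (fun n : ℕ => (30 / 31 : ℝ) ^ n) 31 := by
  have := hasSum_geometric_of_lt_one (r := (30 / 31 : ℝ)) (by norm_num) (by norm_num)
  have e : (1 - 30 / 31 : ℝ)⁻¹ = 31 := by norm_num
  rwa [e] at this

theorem geo_sum' : HasSum (fun n : ℕ => (n : ℝ) * (30 / 31 : ℝ) ^ n) 930 := by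
  have := hasSum_coe_mul_geometric_of_norm_lt_one (r := (30 / 31 : ℝ)) (by
    rw [Real.norm_eq_abs, abs_of_pos (by norm_num)]; norm_num)
  have e : (30 / 31 : ℝ) / (1 - 30 / 31) ^ 2 = 930 := by norm_num
  rwa [e] at this

/-- TheoremCLOSE. -/
theorem close : TheoremCLOSE := by
  intro C η hC hη
  refine ⟨min (1 / 10) (min (1 / (100 * C)) (η / (13000 * C))), by positivity, ?_⟩
  intro κ E γ t β a b ψ ω hk hκ hL hF hloc
  have hk1 : ‖κ‖ ≤ 1 / 10 := hκ.trans (min_le_left _ _)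
  have hCk : C * ‖κ‖ ≤ 1 / 100 := by
    have h := hκ.trans ((min_le_right _ _).trans (min_le_left _ _))
    rw [le_div_iff₀ (by positivity)] at h
    linarith
  have hηk : 13000 * C * ‖κ‖ ≤ η := by
    have h := hκ.trans ((min_le_right _ _).trans (min_le_right _ _))
    rw [le_div_iff₀ (by positivity)] at h
    linarith
  obtain ⟨ht1, ht2⟩ := t_range hk (hF.tnear.trans hCk)
  have ht : 0 < t := by linarith
  have hbe := beta_sum hk hF.tnear hF.βnear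
  have hA := coeff_bound hC hk hk1 hCk hL hF
  obtain ⟨hBs, hBt⟩ := hF.bnear
  set k := ‖κ‖ with hkdef
  set A : ℕ → ℂ := fun n => a n - leadC κ t n with hAdef
  set B : ℕ → ℂ := fun n => b n - leadC κ t n with hBdef
  have hD : 0 ≤ 5 * C * k ^ 2 := by positivity
  have hkt : 1 / t ≤ 10 / k := by
    rw [div_le_div_iff₀ ht hk]; linarith
  -- sums
  have hfin : ∀ z : ℂ, t ≤ ‖z‖ → ‖z‖ ≤ 3 / 4 → HasSum (fun n => term t A B z n)
      (ψ z - 1 - ((β * Real.log (‖z‖ / t) : ℝ) : ℂ) - (dotp κ (Xmap t z) : ℂ) * I) := by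
    intro z h1 h2
    have hz : z ≠ 0 := by
      intro h; rw [h, norm_zero] at h1; linarith
    have h := (hloc.psi z (by linarith) (by linarith)).sub (lead_hasSum κ ht hz)
    have e : (fun n => term t A B z n) = fun n => (a n * (z / t) ^ n +
        (-1) ^ n * conj (a n) * (conj z / t) ^ n + b n * (t / conj z) ^ n +
        (-1) ^ n * conj (b n) * (t / z) ^ n) - term t (leadC κ t) (leadC κ t) z n := by
      funext n
      exact (term_sub_lead κ t a b z n).symm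
    rw [e]
    exact h
  have hfinO : ∀ z : ℂ, t ≤ ‖z‖ → ‖z‖ ≤ 3 / 4 → HasSum (fun n => termO t A B z n)
      (z * ω z - β / 2 - (z * modelOm κ t z + ((Real.sqrt 2 * ‖κ‖ * t : ℝ) : ℂ) / 2)) := by
    intro z h1 h2
    have hz : z ≠ 0 := by
      intro h; rw [h, norm_zero] at h1; linarith
    have h := (hloc.om z (by linarith) (by linarith)).sub (leadO_hasSum κ ht hz)
    have e : (fun n => termO t A B z n) = fun n : ℕ => ((n : ℂ) * (a n * (z / t) ^ n -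
        (-1) ^ n * conj (b n) * (t / z) ^ n)) - termO t (leadC κ t) (leadC κ t) z n := by
      funext n
      exact (termO_sub_lead κ t a b z n).symm
    rw [e]
    exact h
  have herr : ∀ z : ℂ, ψ z - modelPsi κ t z =
      (ψ z - 1 - ((β * Real.log (‖z‖ / t) : ℝ) : ℂ) - (dotp κ (Xmap t z) : ℂ) * I) +
      (((β + Real.sqrt 2 * k * t) * Real.log (‖z‖ / t) : ℝ) : ℂ) := by
    intro z
    unfold modelPsi
    push_cast
    ring
  have hk3 : C * k ^ 3 = C * k ^ 2 * k := by ring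
  have hCk2 : 0 ≤ C * k ^ 2 := by positivity
  have hBt' : ∑' n : ℕ, 2 ^ n * ‖B n‖ ≤ C * k ^ 3 := hBt
  have hk0 : k ≠ 0 := hk.ne'
  have htB : 1 / t * (C * k ^ 3) ≤ 10 * (C * k ^ 2) := by
    calc 1 / t * (C * k ^ 3) ≤ 10 / k * (C * k ^ 3) := by gcongr
      _ = 10 * (C * k ^ 2) := by field_simp
  have hfinal : 13000 * (C * k ^ 2) ≤ η * k := by
    calc 13000 * (C * k ^ 2) = 13000 * C * k * k := by ring
      _ ≤ η * k := by gcongr
  refine ⟨?_, ?_, ?_⟩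
  · intro x h1 h2
    rw [herr]
    refine (norm_add_le _ _).trans ?_
    have s1 : ‖ψ x - 1 - ((β * Real.log (‖x‖ / t) : ℝ) : ℂ) - (dotp κ (Xmap t x) : ℂ) * I‖ ≤
        2 * (5 * C * k ^ 2) * 31 + 2 * ∑' n : ℕ, 2 ^ n * ‖B n‖ := by
      rw [← (hfin x h1 h2).tsum_eq]
      exact tsum_of_norm_bounded ((geo_sum.mul_left _).add (hBs.hasSum.mul_left 2))
        (fun n => norm_term_le ht hA h1 h2 n)
    have s2 : ‖(((β + Real.sqrt 2 * k * t) * Real.log (‖x‖ / t) : ℝ) : ℂ)‖ ≤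
        30 * (C * k ^ 2) := by
      rw [Complex.norm_real, Real.norm_eq_abs, abs_mul]
      have := log_le ht h1
      calc |β + Real.sqrt 2 * k * t| * |Real.log (‖x‖ / t)| ≤ 3 * C * k ^ 3 * (‖x‖ / t) := by
            gcongr
        _ ≤ 3 * C * k ^ 3 * (1 / t) := by gcongr; linarith
        _ = 3 * (1 / t * (C * k ^ 3)) := by ring
        _ ≤ 30 * (C * k ^ 2) := by linarith
    have s3 : C * k ^ 3 ≤ C * k ^ 2 := by
      rw [hk3]
      calc C * k ^ 2 * k ≤ C * k ^ 2 * 1 := by gcongr; linarith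
        _ = _ := by ring
    linarith
  · intro x y h1 h2 h3 h4
    rw [herr x, herr y]
    have e : ∀ p q r s : ℂ, (p + q) - (r + s) = (p - r) + (q - s) := by intros; ring
    rw [e]
    refine (norm_add_le _ _).trans ?_
    have s1 : ‖(ψ x - 1 - ((β * Real.log (‖x‖ / t) : ℝ) : ℂ) - (dotp κ (Xmap t x) : ℂ) * I) -
        (ψ y - 1 - ((β * Real.log (‖y‖ / t) : ℝ) : ℂ) - (dotp κ (Xmap t y) : ℂ) * I)‖ ≤
        (8 / 3 * (5 * C * k ^ 2) * 930 + 2 / t * ∑' n : ℕ, 2 ^ n * ‖B n‖) * ‖x - y‖ := by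
      rw [← ((hfin x h1 h2).sub (hfin y h3 h4)).tsum_eq]
      exact tsum_of_norm_bounded (((geo_sum'.mul_left _).add
        (hBs.hasSum.mul_left (2 / t))).mul_right ‖x - y‖)
        (fun n => norm_term_sub_le ht hD hA h1 h2 h3 h4 n)
    have s2 : ‖(((β + Real.sqrt 2 * k * t) * Real.log (‖x‖ / t) : ℝ) : ℂ) -
        (((β + Real.sqrt 2 * k * t) * Real.log (‖y‖ / t) : ℝ) : ℂ)‖ ≤
        30 * (C * k ^ 2) * ‖x - y‖ := by
      rw [← Complex.ofReal_sub, ← mul_sub, Complex.norm_real, Real.norm_eq_abs, abs_mul]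
      have hl := log_sub_le ht h1 h3
      have hn : |‖x‖ - ‖y‖| ≤ ‖x - y‖ := abs_norm_sub_norm_le x y
      calc |β + Real.sqrt 2 * k * t| * |Real.log (‖x‖ / t) - Real.log (‖y‖ / t)|
          ≤ 3 * C * k ^ 3 * (1 / t * ‖x - y‖) := by
            gcongr
            exact hl.trans (by gcongr)
        _ = 3 * (1 / t * (C * k ^ 3)) * ‖x - y‖ := by ring
        _ ≤ 3 * (10 * (C * k ^ 2)) * ‖x - y‖ := by gcongr
        _ = _ := by ring
    have s3 : 2 / t * ∑' n : ℕ, 2 ^ n * ‖B n‖ ≤ 20 * (C * k ^ 2) := by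
      calc 2 / t * ∑' n : ℕ, 2 ^ n * ‖B n‖ ≤ 2 / t * (C * k ^ 3) := by gcongr
        _ = 2 * (1 / t * (C * k ^ 3)) := by ring
        _ ≤ _ := by linarith
    calc _ ≤ (8 / 3 * (5 * C * k ^ 2) * 930 + 2 / t * ∑' n : ℕ, 2 ^ n * ‖B n‖) * ‖x - y‖ +
          30 * (C * k ^ 2) * ‖x - y‖ := add_le_add s1 s2
      _ = (8 / 3 * (5 * C * k ^ 2) * 930 + 2 / t * ∑' n : ℕ, 2 ^ n * ‖B n‖ +
          30 * (C * k ^ 2)) * ‖x - y‖ := by ring
      _ ≤ η * k * ‖x - y‖ := by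
          gcongr
          linarith
  · intro x h1 h2
    have hx0 : x ≠ 0 := by
      intro h; rw [h, norm_zero] at h1; linarith
    have hxp : 0 < ‖x‖ := norm_pos_iff.mpr hx0
    have s1 : ‖x * ω x - β / 2 - (x * modelOm κ t x + ((Real.sqrt 2 * ‖κ‖ * t : ℝ) : ℂ) / 2)‖ ≤
        ‖x‖ * (4 / 3 * (5 * C * k ^ 2) * 930 + 1 / t * ∑' n : ℕ, 2 ^ n * ‖B n‖) := by
      rw [← (hfinO x h1 h2).tsum_eq]
      exact tsum_of_norm_bounded (((geo_sum'.mul_left _).add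
        (hBs.hasSum.mul_left (1 / t))).mul_left ‖x‖)
        (fun n => norm_termO_le ht hD hA h1 h2 n)
    have s2 : ‖(((β + Real.sqrt 2 * k * t) / 2 : ℝ) : ℂ)‖ ≤ ‖x‖ * (15 * (C * k ^ 2)) := by
      rw [Complex.norm_real, Real.norm_eq_abs, abs_div, abs_two]
      have : 1 ≤ ‖x‖ / t := (one_le_div ht).mpr h1
      calc |β + Real.sqrt 2 * k * t| / 2 ≤ 3 * C * k ^ 3 / 2 := by gcongr
        _ = 1 * (3 / 2 * (C * k ^ 3)) := by ring
        _ ≤ ‖x‖ / t * (3 / 2 * (C * k ^ 3)) := by gcongr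
        _ = ‖x‖ * (3 / 2 * (1 / t * (C * k ^ 3))) := by ring
        _ ≤ ‖x‖ * (3 / 2 * (10 * (C * k ^ 2))) := by gcongr
        _ = _ := by ring
    have s3 : 1 / t * ∑' n : ℕ, 2 ^ n * ‖B n‖ ≤ 10 * (C * k ^ 2) := by
      calc 1 / t * ∑' n : ℕ, 2 ^ n * ‖B n‖ ≤ 1 / t * (C * k ^ 3) := by gcongr
        _ ≤ _ := htB
    have e : x * (ω x - modelOm κ t x) = (x * ω x - β / 2 -
        (x * modelOm κ t x + ((Real.sqrt 2 * ‖κ‖ * t : ℝ) : ℂ) / 2)) +
        (((β + Real.sqrt 2 * k * t) / 2 : ℝ) : ℂ) := by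
      push_cast
      ring
    have s4 : ‖x‖ * ‖ω x - modelOm κ t x‖ ≤ ‖x‖ * (η * k) := by
      rw [← norm_mul, e]
      refine (norm_add_le _ _).trans ((add_le_add s1 s2).trans ?_)
      rw [← mul_add]
      gcongr
      linarith
    exact le_of_mul_le_mul_left s4 hxp

end CLOSE
end FB
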